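/-
helper41.  [R2-1] of helper7's part R2 of MP_7b8095_gt: moving towards a null direction.
-/
import Pool.Agent.helper22.WB.R2_2
import Pool.Agent.helper19.WB.B1a

set_option autoImplicit false
open Matrix MeasureTheory

namespace Pool.Agent.helper7.WB
open Pool.Agent.helper21.WB

theorem lift_mv {ξ : I → ℝ} (h : NullF ξ) (t : ℝ) (y : X) :
    lift (mv ξ t y) = Real.exp (-t) • lift y + (Real.sinh t / hb ξ y) • ξ := Fl.lmv h t y

theorem hb_mv {ξ : I → ℝ} (h : NullF ξ) (t : ℝ) (y : X) :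
    hb ξ (mv ξ t y) = Real.exp (-t) * hb ξ y := Fl.hmv h t y

theorem mv_zero {ξ : I → ℝ} (y : X) : mv ξ 0 y = y := by
  ext i
  simp [mv]

theorem mv_mv {ξ : I → ℝ} (h : NullF ξ) (s t : ℝ) (y : X) :
    mv ξ s (mv ξ t y) = mv ξ (s + t) y := by
  apply lift_injective
  have hy := Fl.pos h y
  have ht := Real.exp_pos (-t)
  rw [lift_mv h, lift_mv h, lift_mv h, hb_mv h, smul_add, smul_smul, smul_smul, add_assoc,
    ← add_smul]
  congr 2
  · rw [← Real.exp_add]; congr 1; ring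
  · have e1 : Real.exp t * Real.exp (-t) = 1 := by rw [← Real.exp_add]; simp
    have e2 : Real.exp s * Real.exp (-s) = 1 := by rw [← Real.exp_add]; simp
    have e3 : Real.exp (s + t) = Real.exp s * Real.exp t := Real.exp_add s t
    have e4 : Real.exp (-(s + t)) = Real.exp (-s) * Real.exp (-t) := by
      rw [← Real.exp_add]; congr 1; ring
    rw [Real.sinh_eq, Real.sinh_eq, Real.sinh_eq, e3, e4]
    have e5 : (Real.exp (-t))⁻¹ = Real.exp t := by rw [Real.exp_neg, inv_inv]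
    have e6 : (Real.exp s - Real.exp (-s)) / 2 / (Real.exp (-t) * hb ξ y) =
        (Real.exp s - Real.exp (-s)) / 2 * Real.exp t / hb ξ y := by
      rw [← e5]; field_simp
    rw [e6]
    field_simp
    ring

theorem mv_smul {ξ : I → ℝ} {c : ℝ} (hc : 0 < c) (t : ℝ) (y : X) :
    mv (c • ξ) t y = mv ξ t y := by
  have e : hb (c • ξ) y = c * hb ξ y := by unfold hb; rw [bl_smul_left]; ring
  ext i
  simp only [mv, e, Pi.smul_apply, smul_eq_mul]
  congr 1
  rw [div_mul_eq_mul_div, div_mul_eq_mul_div, show Real.sinh t * (c * ξ (Sum.inl i)) =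
    c * (Real.sinh t * ξ (Sum.inl i)) by ring, mul_div_mul_left _ _ hc.ne']

theorem nullF_mulVec {ξ : I → ℝ} (h : NullF ξ) {g : GLI} (hg : InG g) : NullF (g.val *ᵥ ξ) := by
  refine ⟨by rw [bl_mulVec hg.1, h.1], ?_⟩
  have hv := bl_row hg.1
  have hn := bl_neg (v := fun j => (if j = o then (1:ℝ) else -1) * g.val o j)
    (w := ξ) (by rw [hv]; norm_num) (by simpa using hg.2) h.1.le h.2
  have : (g.val *ᵥ ξ) o
      = - bl (fun j => (if j = o then (1:ℝ) else -1) * g.val o j) ξ := by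
    rw [bl_apply, Matrix.mulVec, dotProduct, Fintype.sum_sum_type]
    simp [add_comm]
  rw [this]; linarith

theorem act_mv {ξ : I → ℝ} (h : NullF ξ) {g : GLI} (hg : InG g) (t : ℝ) (y : X) :
    act g (mv ξ t y) = mv (g.val *ᵥ ξ) t (act g y) := by
  apply lift_injective
  rw [lift_act hg, lift_mv h, lift_mv (nullF_mulVec h hg), lift_act hg, Fl.hact hg,
    Matrix.mulVec_add, Matrix.mulVec_smul, Matrix.mulVec_smul]

theorem hd_mv {ξ : I → ℝ} (h : NullF ξ) (t : ℝ) (y : X) : hd y (mv ξ t y) = |t| := by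
  have hy := Fl.pos h y
  have e : ch y (mv ξ t y) = Real.cosh |t| := by
    rw [Real.cosh_abs]
    unfold ch
    rw [lift_mv h, bl_add_right, bl_smul_right, bl_smul_right, bl_lift, bl_comm (lift y) ξ,
      show bl ξ (lift y) = - hb ξ y by unfold hb; ring, Real.cosh_eq, Real.sinh_eq]
    field_simp
    ring
  unfold hd
  rw [e, Real.arcosh_cosh (abs_nonneg t)]

/-- two points at the same distance from `y` in the directions `ξ`, `ζ` -/
theorem ch_mv_mv {ξ ζ : I → ℝ} (h : NullF ξ) (h' : NullF ζ) (t : ℝ) (y : X) :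
    ch (mv ξ t y) (mv ζ t y) = 1 + Real.sinh t ^ 2 * (- bl ξ ζ / (hb ξ y * hb ζ y)) := by
  have hx := Fl.pos h y
  have hz := Fl.pos h' y
  have e1 : bl ξ (lift y) = - hb ξ y := by unfold hb; ring
  have e2 : bl (lift y) ζ = - hb ζ y := by rw [bl_comm]; unfold hb; ring
  unfold ch
  rw [lift_mv h, lift_mv h']
  simp only [bl_add_left, bl_add_right, bl_smul_left, bl_smul_right, bl_lift, e1, e2]
  have h3 : Real.exp (-t) * Real.exp (-t) + 2 * Real.exp (-t) * Real.sinh t = 1 := by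
    rw [Real.sinh_eq]
    have : Real.exp t * Real.exp (-t) = 1 := by rw [← Real.exp_add]; simp
    nlinarith
  have h4 : Real.sinh t / hb ξ y * hb ξ y = Real.sinh t := by field_simp
  have h5 : Real.sinh t / hb ζ y * hb ζ y = Real.sinh t := by field_simp
  have h6 : Real.sinh t ^ 2 * (-bl ξ ζ / (hb ξ y * hb ζ y)) =
      - (Real.sinh t / hb ζ y * (Real.sinh t / hb ξ y) * bl ξ ζ) := by
    field_simp
  rw [h6]
  linear_combination h3 + Real.exp (-t) * h4 + Real.exp (-t) * h5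

namespace Mv

/-- the height functions are 1-Lipschitz -/
theorem log_hb_lip {ξ : I → ℝ} (h : NullF ξ) (x y : X) :
    |Real.log (hb ξ x) - Real.log (hb ξ y)| ≤ hd x y := by
  have hx := Fl.pos h x
  have hy := Fl.pos h y
  have e := ch_eq_fl h x y
  have h1 : Real.cosh (Real.log (hb ξ x) - Real.log (hb ξ y)) ≤ Real.cosh (hd x y) := by
    rw [cosh_hd, e]
    have : 0 ≤ hb ξ x * hb ξ y * fl ξ x y ^ 2 / 2 := by positivity
    linarith
  have := Real.cosh_le_cosh.1 h1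
  rwa [abs_of_nonneg (hd_nonneg x y)] at this

/-- decomposition of a vector with respect to `y` -/
theorem bl_orth (y : X) (v : I → ℝ) : bl (v + bl v (lift y) • lift y) (lift y) = 0 := by
  rw [bl_add_left, bl_smul_left, bl_lift]; ring

/-- product of two vectors in terms of their components -/
theorem bl_decomp (y : X) (u v : I → ℝ) :
    bl u v = bl (u + bl u (lift y) • lift y) (v + bl v (lift y) • lift y)
      - bl u (lift y) * bl v (lift y) := by
  simp only [bl_add_left, bl_add_right, bl_smul_left, bl_smul_right, bl_lift]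
  rw [bl_comm (lift y) v]
  ring

/-- Cauchy–Schwarz with respect to `y` -/
theorem bl_cs (y : X) (u v : I → ℝ) :
    (bl u v + bl u (lift y) * bl v (lift y)) ^ 2 ≤
      (bl u u + bl u (lift y) ^ 2) * (bl v v + bl v (lift y) ^ 2) := by
  have h := B1a.cs_orth y _ _ (bl_orth y u) (bl_orth y v)
  have e1 := bl_decomp y u v
  have e2 := bl_decomp y u u
  have e3 := bl_decomp y v v
  have e1' : bl u v + bl u (lift y) * bl v (lift y) =
    bl (u + bl u (lift y) • lift y) (v + bl v (lift y) • lift y) := by linarith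
  have e2' : bl u u + bl u (lift y) ^ 2 =
    bl (u + bl u (lift y) • lift y) (u + bl u (lift y) • lift y) := by
    rw [sq]; linarith
  have e3' : bl v v + bl v (lift y) ^ 2 =
    bl (v + bl v (lift y) • lift y) (v + bl v (lift y) • lift y) := by
    rw [sq]; linarith
  rw [e1', e2', e3']
  exact h

/-- quantitative form of `null_close` -/
theorem null_close_aux {ξ ζ : I → ℝ} {y z : X} {L δ : ℝ} (hξ : NullF ξ) (hζ : NullF ζ)
    (h2 : |Real.log (hb ξ y)| ≤ 2) (hd1 : |Real.log (hb ξ y) - Real.log (hb ζ y)| ≤ δ)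
    (hp : - bl ξ ζ ≤ δ) (hL : hd y z ≤ L) :
    |Real.log (hb ξ z) - Real.log (hb ζ z)| ≤ Real.exp (L + 2 + δ) * (Real.cosh L *
      (Real.exp 2 * (Real.exp δ - 1) +
        Real.sqrt (2 * δ + (Real.exp 2 * (Real.exp δ - 1)) ^ 2))) := by
  have hδ : 0 ≤ δ := le_trans (abs_nonneg _) hd1
  have ha := Fl.pos hξ y
  have hb' := Fl.pos hζ y
  have hA := Fl.pos hξ z
  have hB := Fl.pos hζ z
  have hL0 : 0 ≤ L := le_trans (hd_nonneg y z) hL
  -- the heights at `y`
  have la2 : Real.log (hb ξ y) ≤ 2 := (abs_le.1 h2).2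
  have la1 : -2 ≤ Real.log (hb ξ y) := (abs_le.1 h2).1
  have l1 := (abs_le.1 hd1).1
  have l2 := (abs_le.1 hd1).2
  have a_le : hb ξ y ≤ Real.exp 2 := by
    rw [← Real.exp_log ha]; exact Real.exp_le_exp.2 la2
  have b_le : hb ζ y ≤ hb ξ y * Real.exp δ := by
    rw [← Real.exp_log ha, ← Real.exp_log hb', ← Real.exp_add]
    exact Real.exp_le_exp.2 (by linarith)
  have a_le' : hb ξ y ≤ hb ζ y * Real.exp δ := by
    rw [← Real.exp_log ha, ← Real.exp_log hb', ← Real.exp_add]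
    exact Real.exp_le_exp.2 (by linarith)
  have e1 : 1 ≤ Real.exp δ := Real.one_le_exp hδ
  have hm : 0 ≤ Real.exp δ - 1 := by linarith
  set C := Real.exp 2 * (Real.exp δ - 1) with hC
  have hC0 : 0 ≤ C := by positivity
  have hdiff : |hb ζ y - hb ξ y| ≤ C := by
    rw [abs_le]
    constructor
    · -- `a - b ≤ C`
      have h3 : hb ξ y - hb ζ y ≤ hb ξ y * (Real.exp δ - 1) := by
        by_cases hab : hb ζ y ≤ hb ξ y
        · nlinarith
        · have : 0 ≤ hb ξ y * (Real.exp δ - 1) := by positivity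
          linarith
      have h4 : hb ξ y * (Real.exp δ - 1) ≤ C := mul_le_mul_of_nonneg_right a_le hm
      linarith
    · have h3 : hb ζ y - hb ξ y ≤ hb ξ y * (Real.exp δ - 1) := by nlinarith
      have h4 : hb ξ y * (Real.exp δ - 1) ≤ C := mul_le_mul_of_nonneg_right a_le hm
      linarith
  -- the difference at `z`
  set d := ξ - ζ with hdd
  have bdd : bl d d = 2 * (- bl ξ ζ) := by
    rw [hdd]
    simp only [bl_sub_left, bl_sub_right, hξ.1, hζ.1]
    rw [bl_comm ζ ξ]; ring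
  have bdy : bl d (lift y) = hb ζ y - hb ξ y := by
    rw [hdd, bl_sub_left]; unfold hb; ring
  have bdz : bl d (lift z) = hb ζ z - hb ξ z := by
    rw [hdd, bl_sub_left]; unfold hb; ring
  have bzy : bl (lift z) (lift y) = - ch y z := by rw [bl_comm]; unfold ch; ring
  have hch1 : 1 ≤ ch y z := one_le_ch y z
  have hch2 : ch y z ≤ Real.cosh L := by
    rw [← cosh_hd, Real.cosh_le_cosh, abs_of_nonneg (hd_nonneg y z), abs_of_nonneg hL0]; exact hL
  have hcs := bl_cs y d (lift z)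
  rw [bdd, bdy, bdz, bzy, bl_lift] at hcs
  set c := hb ζ y - hb ξ y with hc
  set κ := ch y z with hκ
  have hc2 : c ^ 2 ≤ C ^ 2 := by
    rw [← sq_abs c]; exact pow_le_pow_left₀ (abs_nonneg _) hdiff 2
  have hS0 : 0 ≤ 2 * δ + C ^ 2 := by positivity
  have h5 : (hb ζ z - hb ξ z + c * -κ) ^ 2 ≤ (Real.sqrt (2 * δ + C ^ 2) * Real.cosh L) ^ 2 := by
    refine hcs.trans ?_
    rw [mul_pow, Real.sq_sqrt hS0]
    have h6 : 2 * -bl ξ ζ + c ^ 2 ≤ 2 * δ + C ^ 2 := by linarith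
    have h7 : -1 + (-κ) ^ 2 ≤ Real.cosh L ^ 2 := by nlinarith
    have h8 : 0 ≤ -1 + (-κ) ^ 2 := by nlinarith
    exact mul_le_mul h6 h7 h8 hS0
  have h9 : |hb ζ z - hb ξ z + c * -κ| ≤ Real.sqrt (2 * δ + C ^ 2) * Real.cosh L :=
    abs_le_of_sq_le_sq h5 (by positivity)
  have h10 : |c * κ| ≤ C * Real.cosh L := by
    rw [abs_mul, abs_of_nonneg (by linarith : (0:ℝ) ≤ κ)]
    exact mul_le_mul hdiff hch2 (by linarith) hC0
  have h11 : |hb ζ z - hb ξ z| ≤ Real.cosh L * (C + Real.sqrt (2 * δ + C ^ 2)) := by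
    have e : hb ζ z - hb ξ z = (hb ζ z - hb ξ z + c * -κ) + c * κ := by ring
    rw [e]
    calc |(hb ζ z - hb ξ z + c * -κ) + c * κ| ≤ |hb ζ z - hb ξ z + c * -κ| + |c * κ| :=
          abs_add_le _ _
      _ ≤ Real.sqrt (2 * δ + C ^ 2) * Real.cosh L + C * Real.cosh L := add_le_add h9 h10
      _ = _ := by ring
  -- lower bounds of the heights at `z`
  have lA := (abs_le.1 (log_hb_lip hξ y z)).2
  have lB := (abs_le.1 (log_hb_lip hζ y z)).2
  have A_ge : Real.exp (-(L + 2 + δ)) ≤ hb ξ z := by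
    rw [← Real.exp_log hA]; exact Real.exp_le_exp.2 (by linarith)
  have B_ge : Real.exp (-(L + 2 + δ)) ≤ hb ζ z := by
    rw [← Real.exp_log hB]; exact Real.exp_le_exp.2 (by linarith)
  -- log is Lipschitz
  have key : ∀ u v : ℝ, Real.exp (-(L + 2 + δ)) ≤ u → Real.exp (-(L + 2 + δ)) ≤ v →
      Real.log u - Real.log v ≤ Real.exp (L + 2 + δ) * |u - v| := by
    intro u v hu hv
    have hE := Real.exp_pos (-(L + 2 + δ))
    have hu0 : 0 < u := lt_of_lt_of_le hE hu
    have hv0 : 0 < v := lt_of_lt_of_le hE hv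
    rw [← Real.log_div hu0.ne' hv0.ne']
    have h1 := Real.log_le_sub_one_of_pos (div_pos hu0 hv0)
    have h2 : u / v - 1 = (u - v) / v := by field_simp
    have h3 : (u - v) / v ≤ |u - v| / v := div_le_div_of_nonneg_right (le_abs_self _) hv0.le
    have h4 : |u - v| / v ≤ |u - v| / Real.exp (-(L + 2 + δ)) :=
      div_le_div_of_nonneg_left (abs_nonneg _) hE hv
    have h5 : |u - v| / Real.exp (-(L + 2 + δ)) = Real.exp (L + 2 + δ) * |u - v| := by
      rw [Real.exp_neg, div_inv_eq_mul, mul_comm]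
    linarith
  have hfin : Real.exp (L + 2 + δ) * |hb ζ z - hb ξ z| ≤ Real.exp (L + 2 + δ) *
      (Real.cosh L * (C + Real.sqrt (2 * δ + C ^ 2))) :=
    mul_le_mul_of_nonneg_left h11 (Real.exp_pos _).le
  rw [abs_le]
  constructor
  · have := key _ _ B_ge A_ge
    linarith
  · have := key _ _ A_ge B_ge
    rw [abs_sub_comm] at this
    linarith

end Mv

open Mv

/-- null vectors which are close at `y` are close near `y`
(use `|d|² = bl d d + 2 (bl d (lift y))²` for `d = ξ - ζ`) -/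
theorem null_close (L ε : ℝ) (hε : 0 < ε) : ∃ δ : ℝ, 0 < δ ∧ ∀ (ξ ζ : I → ℝ) (y z : X),
    NullF ξ → NullF ζ → |Real.log (hb ξ y)| ≤ 2 → |Real.log (hb ξ y) - Real.log (hb ζ y)| ≤ δ →
    - bl ξ ζ ≤ δ → hd y z ≤ L → |Real.log (hb ξ z) - Real.log (hb ζ z)| ≤ ε := by
  set f : ℝ → ℝ := fun δ => Real.exp (L + 2 + δ) * (Real.cosh L *
      (Real.exp 2 * (Real.exp δ - 1) +
        Real.sqrt (2 * δ + (Real.exp 2 * (Real.exp δ - 1)) ^ 2))) with hf
  have hcont : Continuous f := by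
    rw [hf]; fun_prop
  have h0 : f 0 = 0 := by simp [hf]
  have hev : ∀ᶠ δ in nhds (0 : ℝ), f δ < ε :=
    hcont.continuousAt.eventually_lt continuousAt_const (by rw [h0]; exact hε)
  obtain ⟨r, hr, hr2⟩ := Metric.eventually_nhds_iff.1 hev
  refine ⟨r / 2, by positivity, ?_⟩
  intro ξ ζ y z h1 h2 h3 h4 h5 h6
  refine (null_close_aux h1 h2 h3 h4 h5 h6).trans ?_
  have := @hr2 (r / 2) (by rw [Real.dist_eq, sub_zero, abs_of_pos (by positivity)]; linarith)
  exact this.le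

namespace Mv

/-- two null vectors are not far in terms of their heights -/
theorem neg_bl_le {ξ ζ : I → ℝ} (h : NullF ξ) (h' : NullF ζ) (y : X) :
    - bl ξ ζ ≤ 2 * (hb ξ y * hb ζ y) := by
  have hx := Fl.pos h y
  have hz := Fl.pos h' y
  have hcs := bl_cs y ξ ζ
  rw [h.1, h'.1, show bl ξ (lift y) = - hb ξ y by unfold hb; ring,
    show bl ζ (lift y) = - hb ζ y by unfold hb; ring] at hcs
  have e : (0 + (-hb ξ y) ^ 2) * (0 + (-hb ζ y) ^ 2) = (hb ξ y * hb ζ y) ^ 2 := by ring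
  rw [e] at hcs
  have := (abs_le.1 (abs_le_of_sq_le_sq hcs (by positivity))).1
  linarith

/-- the point of the horosphere of `ζ` above `y` -/
theorem hb_mv_log {ξ ζ : I → ℝ} (h : NullF ξ) (h' : NullF ζ) (y : X) (hb1 : 1 < hb ζ y) :
    hb ζ (mv ζ (Real.log (hb ζ y)) y) ≤ 1 ∧
      hb ξ (mv ζ (Real.log (hb ζ y)) y) ≤ hb ξ y * hb ζ y := by
  have hx := Fl.pos h y
  have hz := Fl.pos h' y
  have e1 : Real.exp (- Real.log (hb ζ y)) = (hb ζ y)⁻¹ := by
    rw [Real.exp_neg, Real.exp_log hz]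
  constructor
  · rw [hb_mv h', e1, inv_mul_cancel₀ hz.ne']
  · have hle := neg_bl_le h h' y
    have hs : Real.sinh (Real.log (hb ζ y)) = (hb ζ y - (hb ζ y)⁻¹) / 2 := by
      rw [Real.sinh_eq, e1, Real.exp_log hz]
    have e2 : hb ξ (mv ζ (Real.log (hb ζ y)) y) = (hb ζ y)⁻¹ * hb ξ y +
        (hb ζ y - (hb ζ y)⁻¹) / 2 / hb ζ y * (- bl ξ ζ) := by
      unfold hb at hs e1 ⊢
      rw [lift_mv h', bl_add_right, bl_smul_right, bl_smul_right]
      unfold hb
      rw [hs, e1]; ring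
    rw [e2]
    have h3 : 0 ≤ (hb ζ y - (hb ζ y)⁻¹) / 2 / hb ζ y := by
      have : (hb ζ y)⁻¹ ≤ 1 := inv_le_one_of_one_le₀ hb1.le
      have : 0 ≤ hb ζ y - (hb ζ y)⁻¹ := by linarith
      positivity
    have h4 := mul_le_mul_of_nonneg_left hle h3
    have h5 : (hb ζ y)⁻¹ * hb ξ y + (hb ζ y - (hb ζ y)⁻¹) / 2 / hb ζ y *
        (2 * (hb ξ y * hb ζ y)) = hb ξ y * hb ζ y := by
      field_simp
      ring
    linarith

end Mv

/-- disjoint horoballs in general position: `y` in the first one near `z` in the second one is not deep -/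
theorem hb_mul_ge {Ξ : Set (I → ℝ)} (hΞ : Horo Ξ) {ξ ζ : I → ℝ} (h : ξ ∈ Ξ) (h' : ζ ∈ Ξ) (hne : ξ ≠ ζ)
    (y : X) : 1 ≤ hb ξ y * hb ζ y := by
  by_contra hlt
  have hlt' : hb ξ y * hb ζ y < 1 := not_le.1 hlt
  have n1 := hΞ.null ξ h
  have n2 := hΞ.null ζ h'
  have hx := Fl.pos n1 y
  have hz := Fl.pos n2 y
  by_cases hz1 : 1 < hb ζ y
  · obtain ⟨h1, h2⟩ := hb_mv_log n1 n2 y hz1
    exact hne (hΞ.disj ξ h ζ h' _ (h2.trans hlt'.le) h1)
  · by_cases hx1 : 1 < hb ξ y
    · obtain ⟨h1, h2⟩ := hb_mv_log n2 n1 y hx1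
      exact hne (hΞ.disj ξ h ζ h' _ h1 (h2.trans (by rw [mul_comm]; exact hlt'.le)))
    · exact hne (hΞ.disj ξ h ζ h' y (not_lt.1 hx1) (not_lt.1 hz1))

end Pool.Agent.helper7.WB
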